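import Pool.Agent.H88.CM.Targets

/-! Closing lemma on compact manifolds: the composition of bump maps with disjoint supports. -/

open Set Function Topology Metric Filter
open scoped Manifold

namespace Pool.Agent.H86.CM

open Pool.Agent.H88.CL Pool.Agent.H88.CM

theorem pf_MBX (h1 : T_INV) (h2 : T_BMD) (h3 : T_GLU) : T_MBX := by
  intro d M _ _ _ _ _ n A Kh r hGA σ β γ N ι u Sg hβ hbp hsg hcl hsb hdj
  have hex : ∀ l : ℕ, ∃ u' : E d → E d, l < N →
      Bp d (Kh (ι l)) σ (2 * β) (8 * γ) u' ∧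
        (∀ v, (v + u l v) + u' (v + u l v) = v) ∧ ∀ v, (v + u' v) + u l (v + u' v) = v := by
    intro l
    by_cases hl : l < N
    · obtain ⟨u', hu'⟩ := h1 d (Kh (ι l)) σ β γ (u l) (hbp l hl) hβ
      exact ⟨u', fun _ => hu'⟩
    · exact ⟨u l, fun h => absurd h hl⟩
  choose u' hu' using hex
  have hB := fun l (hl : l < N) => h2 d M (A (ι l)) (Kh (ι l)) σ β γ σ (2 * β) (8 * γ) (u l) (u' l)
    (hGA.atl (ι l)) (hGA.cpt (ι l)) (hGA.sub (ι l)) (hbp l hl) (hu' l hl).1 (hu' l hl).2.1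
    (hu' l hl).2.2
  obtain ⟨H, H', hH, hH1, hH2⟩ := h3 d M N (fun l => bmp (A (ι l)) (u l))
    (fun l => bmp (A (ι l)) (u' l)) Sg (fun l hl => (hB l hl).1) (by
      intro l hl y hy
      obtain ⟨hys, hyu⟩ := (hB l hl).2.2 y hy
      have h4 := hsg l hl (A (ι l) y) hyu
      rwa [(A (ι l)).left_inv hys] at h4) hdj
  exact ⟨H, H', hH, ⟨hbp, hsg, hcl, hsb, hdj, hH1, hH2⟩⟩

end Pool.Agent.H86.CM
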